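import Pool.Agent.H31.FL2

open Pool.Agent.H31.FL

universe u v w z

theorem Pool.Agent.Results.MP_c73427_an.Main.result
    {X : Type u} {L : Type v} [TopologicalSpace X] [T35Space X]
    [AddCommGroup L] [Module ℝ L] [TopologicalSpace L] [IsTopologicalAddGroup L]
    [ContinuousSMul ℝ L] [LocallyConvexSpace ℝ L] [T2Space L] (δ : X → L) (hδ : IsFreeLCS δ)
    (h : MultiReflexive.{v, w, z} L) : Schwartz L :=
  schwartz_of_refl hδ h
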